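import Pool.Agent.Helper72.FX.StK

set_option autoImplicit false

/-!
Module RES of project FX (MP_3bffab_ag): restriction of scalars of an additive function.
-/

namespace Pool.Agent.Helper36.FX

open Pool.Agent.Helper72.FX

/-- restriction of scalars keeps finiteness -/
theorem fin_res {A A' : Type} [CommRing A] [CommRing A'] (φ : A' →+* A) (I : Ideal A)
    (hφ : ∀ a : A, ∃ a' : A', a - φ a' ∈ I) (N : Type) [AddCommGroup N] [Module A N] [Module A' N]
    (hc : ∀ (a : A') (m : N), φ a • m = a • m) (hN : kil I N) (hf : Module.Finite A N) :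
    Module.Finite A' N := by
  obtain ⟨S, hS⟩ := hf.fg_top
  refine ⟨⟨S, ?_⟩⟩
  rw [Submodule.eq_top_iff']
  intro x
  have hx : x ∈ Submodule.span A (S : Set N) := by rw [hS]; trivial
  induction hx using Submodule.span_induction with
  | mem x h => exact Submodule.subset_span h
  | zero => exact Submodule.zero_mem _
  | add x y _ _ h1 h2 => exact Submodule.add_mem _ h1 h2
  | smul a x _ h =>
    obtain ⟨a', ha⟩ := hφ a
    have h1 : a • x = a' • x := by
      have h2 := hN _ ha x
      rw [sub_smul, sub_eq_zero] at h2
      rw [h2, hc]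
    rw [h1]
    exact Submodule.smul_mem _ _ h

theorem hRES : StRES := by
  intro A A' _ _ φ I I' hI hφ Λ _ χ
  refine ⟨{ f := fun M _ _ => @AF.f A' _ (kil I') Λ _ χ M _ (Module.compHom M φ), exact' := ?_ }, ?_⟩
  · intro M N Q _ _ _ _ _ _ i p hf hN hi hex hp
    let m1 : Module A' M := Module.compHom M φ
    let m2 : Module A' N := Module.compHom N φ
    let m3 : Module A' Q := Module.compHom Q φ
    let i' : M →ₗ[A'] N := { toFun := i, map_add' := i.map_add, map_smul' := fun a m => i.map_smul (φ a) m }
    let p' : N →ₗ[A'] Q := { toFun := p, map_add' := p.map_add, map_smul' := fun a m => p.map_smul (φ a) m }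
    have h1 : Module.Finite A' N := fin_res φ I hφ N (fun a m => rfl) hN hf
    have h2 : kil I' N := fun x hx y => hN (φ x) (hI (Ideal.mem_map_of_mem φ hx)) y
    exact χ.exact' M N Q i' p' h1 h2 hi hex hp
  · intro M _ _ m' hm
    have h : (Module.compHom M φ : Module A' M) = m' := Module.ext' _ _ fun r m => hm r m
    change @AF.f A' _ (kil I') Λ _ χ M _ (Module.compHom M φ) = _
    rw [h]

end Pool.Agent.Helper36.FX
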