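import Pool.Agent.Helper72.FX.StC1
import Pool.Agent.Helper36.FX.M_RES

set_option autoImplicit false

/-!
Module CE of project FX (MP_3bffab_ag): transfer of the additive function to `P0`.
-/

namespace Pool.Agent.Helper36.FX

open Polynomial Pool.Agent.Helper72.FX Pool.Agent.Helper21.FX

/-- general transfer -/
theorem transfer (hRES : StRES) {A A' : Type} [CommRing A] [CommRing A'] (φ : A' →+* A)
    (j : A →+* A') (I : Ideal A) (I' : Ideal A') (hj : ∀ p, j (φ p) = p)
    (h1 : ∀ x ∈ I', φ x ∈ I) (h2 : ∀ x ∈ I, j x ∈ I') (h3 : ∀ a, a - φ (j a) ∈ I)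
    (D : A) (D' : A') (hD : φ D' - D ∈ I) {Λ : Type} [AddCommGroup Λ] (χ : AF A' (kil I') Λ)
    (c1 : ∀ (N : Type) [AddCommGroup N] [Module A' N], Module.Finite A' N → kil I' N →
      (∀ y : N, D' • y = 0) → χ.f N = 0)
    (c2 : χ.f (A' ⧸ I') = 0)
    (c3 : ∃ (N : Type) (_ : AddCommGroup N) (_ : Module A' N), Module.Finite A' N ∧
      kil I' N ∧ χ.f N ≠ 0) :
    ∃ ψ : AF A (kil I) Λ, ψ.f (A ⧸ I) = 0 ∧
      (∀ (N : Type) [AddCommGroup N] [Module A N], Module.Finite A N → kil I N →
        (∀ y : N, D • y = 0) → ψ.f N = 0) ∧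
      ∃ (N : Type) (_ : AddCommGroup N) (_ : Module A N), Module.Finite A N ∧
        kil I N ∧ ψ.f N ≠ 0 := by
  have hmap : I'.map φ ≤ I := Ideal.map_le_iff_le_comap.2 fun x hx => h1 x hx
  have hsur : ∀ a : A, ∃ a' : A', a - φ a' ∈ I := fun a => ⟨j a, h3 a⟩
  obtain ⟨ψ, hψ⟩ := hRES A A' φ I I' hmap hsur Λ χ
  refine ⟨ψ, ?_, ?_, ?_⟩
  · let m : Module A' (A ⧸ I) := Module.compHom (A ⧸ I) φ
    rw [hψ (A ⧸ I) (fun _ _ => rfl), ← c2]
    let f : A' →ₗ[A'] (A ⧸ I) :=
      { toFun := fun b => Ideal.Quotient.mk I (φ b)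
        map_add' := fun x y => by rw [map_add, map_add]
        map_smul' := fun a x => by
          rw [smul_eq_mul, map_mul, map_mul]
          rfl }
    have hf : Function.Surjective f := by
      intro x
      obtain ⟨a, rfl⟩ := Ideal.Quotient.mk_surjective x
      refine ⟨j a, ?_⟩
      change Ideal.Quotient.mk I (φ (j a)) = Ideal.Quotient.mk I a
      rw [eq_comm, Ideal.Quotient.mk_eq_mk_iff_sub_mem]
      exact h3 a
    have hk : I' = LinearMap.ker f := by
      ext b
      rw [LinearMap.mem_ker]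
      change b ∈ I' ↔ Ideal.Quotient.mk I (φ b) = 0
      rw [Ideal.Quotient.eq_zero_iff_mem]
      refine ⟨h1 b, fun h => ?_⟩
      have h4 := h2 _ h
      rwa [hj] at h4
    let e : (A' ⧸ I') ≃ₗ[A'] (A ⧸ I) :=
      (Submodule.quotEquivOfEq I' (LinearMap.ker f) hk).trans (f.quotKerEquivOfSurjective hf)
    exact AF.equiv χ (gd_kil I') e.symm inferInstance (kil_quot I')
  · intro N _ _ hN hk hy
    let m : Module A' N := Module.compHom N φ
    rw [hψ N (fun _ _ => rfl)]
    refine c1 N (fin_res φ I hsur N (fun _ _ => rfl) hk hN) (fun x hx y => hk _ (h1 x hx) y) ?_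
    intro y
    change φ D' • y = 0
    have h4 : φ D' = (φ D' - D) + D := by ring
    rw [h4, add_smul, hk _ hD, hy, add_zero]
  · obtain ⟨N, i1, i2, hN, hk, hne⟩ := c3
    let m : Module A N := Module.compHom N j
    refine ⟨N, i1, m, ?_, fun x hx y => hk _ (h2 x hx) y, ?_⟩
    · refine fin_res j (⊥ : Ideal A') (fun a => ⟨φ a, ?_⟩) N (fun _ _ => rfl) ?_ hN
      · rw [hj, sub_self]
        exact Ideal.zero_mem _
      · intro x hx y
        rw [Ideal.mem_bot.1 hx, zero_smul]
    · have h4 : ∀ (a : A') (y : N), φ a • y = a • y := by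
        intro a y
        change j (φ a) • y = a • y
        rw [hj]
      rw [hψ N h4]
      exact hne

noncomputable section

/-- the homomorphism back -/
def j09 : P0 →ₐ[ℂ] B9 := MvPolynomial.aeval ![C (C a7), C (C b7), C (C t7), C (C s7), C X,
  C (C s7), C (C m7), C (C x7), X, C (C z7)]

theorem j_a : j09 a0 = C (C a7) := by simp [j09, a0]
theorem j_b : j09 b0 = C (C b7) := by simp [j09, b0]
theorem j_t : j09 t0 = C (C t7) := by simp [j09, t0]
theorem j_r : j09 r0 = C (C s7) := by simp [j09, r0]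
theorem j_n : j09 n0 = C X := by simp [j09, n0]
theorem j_s : j09 s0 = C (C s7) := by simp [j09, s0]
theorem j_m : j09 m0 = C (C m7) := by simp [j09, m0]
theorem j_x : j09 x0 = C (C x7) := by simp [j09, x0]
theorem j_y : j09 y0 = X := by simp [j09, y0]
theorem j_z : j09 z0 = C (C z7) := by simp [j09, z0]

theorem j_const (z : ℂ) : j09 (MvPolynomial.C z) = C (C (MvPolynomial.C z)) := by
  have h := j09.commutes z
  rw [MvPolynomial.algebraMap_eq] at h
  rw [h]
  rfl

theorem i70_const (z : ℂ) : i70 (MvPolynomial.C z) = MvPolynomial.C z := by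
  have h := i70.commutes z
  rw [MvPolynomial.algebraMap_eq, MvPolynomial.algebraMap_eq] at h
  exact h

theorem j_i70 (p : B7) : j09 (i70 p) = C (C p) := by
  have h : (j09.toRingHom.comp i70.toRingHom : B7 →+* B9) = (C.comp C : B7 →+* B9) := by
    apply MvPolynomial.ringHom_ext
    · intro r
      change j09 (i70 (MvPolynomial.C r)) = C (C (MvPolynomial.C r))
      rw [i70_const, j_const]
    · intro i
      fin_cases i
      · exact (congrArg j09 i70_a).trans j_a
      · exact (congrArg j09 i70_b).trans j_b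
      · exact (congrArg j09 i70_t).trans j_t
      · exact (congrArg j09 i70_s).trans j_s
      · exact (congrArg j09 i70_m).trans j_m
      · exact (congrArg j09 i70_x).trans j_x
      · exact (congrArg j09 i70_z).trans j_z
  exact RingHom.congr_fun h p

theorem j_i90 (p : B9) : j09 (i90 p) = p := by
  have h : (j09.toRingHom.comp i90 : B9 →+* B9) = RingHom.id B9 := by
    apply Polynomial.ringHom_ext'
    · apply Polynomial.ringHom_ext'
      · refine RingHom.ext fun p => ?_
        change j09 (i90 (C (C p))) = C (C p)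
        rw [i90_C, j_i70]
      · change j09 (i90 (C X)) = C X
        rw [i90_n, j_n]
    · change j09 (i90 X) = X
      rw [i90_y, j_y]
  exact RingHom.congr_fun h p

theorem i_j (p : P0) : Ideal.Quotient.mk (Ideal.span {s0 - r0}) (i90 (j09 p)) =
    Ideal.Quotient.mk (Ideal.span {s0 - r0}) p := by
  have h : ((Ideal.Quotient.mk (Ideal.span {s0 - r0})).comp (i90.comp j09.toRingHom) :
      P0 →+* (P0 ⧸ Ideal.span {s0 - r0})) = Ideal.Quotient.mk (Ideal.span {s0 - r0}) := by
    apply MvPolynomial.ringHom_ext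
    · intro r
      change Ideal.Quotient.mk (Ideal.span {s0 - r0}) (i90 (j09 (MvPolynomial.C r))) = _
      rw [j_const, i90_C, i70_const]
    · have key : ∀ (v : P0) (w : B9), j09 v = w → i90 w = v →
          Ideal.Quotient.mk (Ideal.span {s0 - r0}) (i90 (j09 v)) =
            Ideal.Quotient.mk (Ideal.span {s0 - r0}) v := by
        intro v w h1 h2
        rw [h1, h2]
      intro i
      fin_cases i
      · exact key a0 _ j_a (by rw [i90_C, i70_a])
      · exact key b0 _ j_b (by rw [i90_C, i70_b])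
      · exact key t0 _ j_t (by rw [i90_C, i70_t])
      · change Ideal.Quotient.mk (Ideal.span {s0 - r0}) (i90 (j09 r0)) =
          Ideal.Quotient.mk (Ideal.span {s0 - r0}) r0
        rw [j_r, i90_C, i70_s, Ideal.Quotient.mk_eq_mk_iff_sub_mem]
        exact Ideal.subset_span rfl
      · exact key n0 _ j_n i90_n
      · exact key s0 _ j_s (by rw [i90_C, i70_s])
      · exact key m0 _ j_m (by rw [i90_C, i70_m])
      · exact key x0 _ j_x (by rw [i90_C, i70_x])
      · exact key y0 _ j_y i90_y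
      · exact key z0 _ j_z (by rw [i90_C, i70_z])
  exact RingHom.congr_fun h p

theorem neg_aux {R : Type} [CommRing R] {x y : R} (h : x = 0 - y) : y = -x := by
  rw [h]
  ring

theorem hCE : StCE := by
  intro hRES hCD
  obtain ⟨χG, c1, c2, c3⟩ := hCD
  obtain ⟨I, hI⟩ : ∃ I : Ideal P0, I = Ideal.span {E10, E20, s0 - r0} := ⟨_, rfl⟩
  have e1 : E10 ∈ I := by rw [hI]; exact Ideal.subset_span (by simp)
  have e2 : E20 ∈ I := by rw [hI]; exact Ideal.subset_span (by simp)
  have e3 : s0 - r0 ∈ I := by rw [hI]; exact Ideal.subset_span (by simp)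
  have q1 : j09 (s0 - r0) = 0 := by rw [map_sub, j_s, j_r, sub_self]
  have f1 : C (pel s7 q7) ∈ pid I8 (C D7) h8 := by
    refine (le_sup_left : I8.map C ≤ pid I8 (C D7) h8) (Ideal.mem_map_of_mem C ?_)
    exact (le_sup_right : Ideal.span {pel s7 q7} ≤ pid ⊥ s7 q7) (Ideal.subset_span rfl)
  have f2 : pel (C D7) h8 ∈ pid I8 (C D7) h8 :=
    (le_sup_right : Ideal.span {pel (C D7) h8} ≤ pid I8 (C D7) h8) (Ideal.subset_span rfl)
  have h1 : pid I8 (C D7) h8 ≤ I.comap i90 := by
    refine sup_le ?_ ?_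
    · rw [Ideal.map_le_iff_le_comap]
      refine sup_le ?_ ?_
      · rw [Ideal.map_bot]
        exact bot_le
      · rw [Ideal.span_singleton_le_iff_mem, Ideal.mem_comap, Ideal.mem_comap, i90_p1]
        exact I.sub_mem (I.mul_mem_right _ e3) e1
    · rw [Ideal.span_singleton_le_iff_mem, Ideal.mem_comap, i90_p2]
      exact I.add_mem e2 (I.mul_mem_right _ e3)
  have h2 : I ≤ (pid I8 (C D7) h8).comap j09.toRingHom := by
    rw [hI, Ideal.span_le]
    have g1 : j09 E10 = -C (pel s7 q7) := by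
      have h := congrArg j09 i90_p1
      rw [j_i90, map_sub, map_mul, q1, zero_mul] at h
      exact neg_aux (R := B9) h
    have g2 : j09 E20 = pel (C D7) h8 := by
      have h := congrArg j09 i90_p2
      rw [j_i90, map_add, map_mul, q1, zero_mul, add_zero] at h
      exact h.symm
    intro x hx
    rw [SetLike.mem_coe, Ideal.mem_comap]
    change j09 x ∈ _
    rcases hx with rfl | rfl | rfl
    · rw [g1]
      exact (pid I8 (C D7) h8).neg_mem f1
    · rw [g2]
      exact f2
    · rw [q1]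
      exact Ideal.zero_mem _
  have h3 : ∀ a : P0, a - i90 (j09.toRingHom a) ∈ I := by
    intro a
    have h := (Ideal.Quotient.mk_eq_mk_iff_sub_mem _ _).1 (i_j a).symm
    refine (Ideal.span_le.2 ?_ : Ideal.span {s0 - r0} ≤ I) h
    intro x hx
    rw [Set.mem_singleton_iff.1 hx]
    exact e3
  have hD : i90 (C (C D7)) - D0 ∈ I := by
    rw [i90_D, D0]
    have h : (1 + t0 * s0 * (m0 * kx a0 b0 t0 + s0 * x0)) -
        (1 + t0 * s0 * (m0 * kx a0 b0 t0 + r0 * x0)) = (s0 - r0) * (t0 * s0 * x0) := by ring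
    rw [h]
    exact I.mul_mem_right _ e3
  unfold CEx
  rw [← hI]
  exact transfer hRES i90 j09.toRingHom I (pid I8 (C D7) h8) j_i90 (fun x hx => h1 hx)
    (fun x hx => h2 hx) h3 D0 (C (C D7)) hD χG c1 c2 c3

end

end Pool.Agent.Helper36.FX
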