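import Pool.Agent.Helper87.FX.StC

set_option autoImplicit false

/-!
Module CEL of project FX (MP_3bffab_ag): the explicit open cell.
-/

namespace Pool.Agent.Helper36.FX

open Pool.Agent.Helper87.FX
open Set Topology Metric Filter
open scoped ContDiff

theorem hCEL : StDSK → StDER → StCEL := by
  rintro ⟨α, β, hα, hα1, hβ, hβα, hαβ⟩ hDER n F
  have hev : ContDiff ℝ ∞ (fun z : Fin n → ℂ => MvPolynomial.eval z F) := by
    have h1 := (hDER n F).1
    have h2 : ContDiff ℝ ∞ (fun z : Fin n → ℂ => ((0, 0, z) : AV n)) :=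
      contDiff_const.prodMk (contDiff_const.prodMk contDiff_id)
    have h3 := (h1.comp h2).neg
    have h4 : (fun z : Fin n → ℂ => -(Pq F ∘ fun z : Fin n → ℂ => ((0, 0, z) : AV n)) z) =
        fun z : Fin n → ℂ => MvPolynomial.eval z F := by
      funext z
      simp [Pq]
    rwa [h4] at h3
  have hne : ∀ a : ℂ, 1 + α a ≠ 0 := by
    intro a h
    have h1 : α a = -1 := by linear_combination h
    have h2 := hα1 a
    rw [h1, norm_neg, norm_one] at h2
    norm_num at h2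
  obtain ⟨e0, he0⟩ : ∃ e0 : (ℂ × (Fin n → ℂ)) × AV n → AV n × AV n, e0 = fun p =>
      ((1 + α p.1.1, MvPolynomial.eval p.1.2 F * (1 + α p.1.1)⁻¹, p.1.2), p.2) := ⟨_, rfl⟩
  obtain ⟨ρ, hρ⟩ : ∃ ρ : AV n × AV n → (ℂ × (Fin n → ℂ)) × AV n, ρ = fun q =>
      ((β (q.1.1 - 1), q.1.2.2), q.2) := ⟨_, rfl⟩
  obtain ⟨O, hO⟩ : ∃ O : Set (AV n × AV n), O = {q | ‖q.1.1 - 1‖ < 1 / 2} := ⟨_, rfl⟩
  have hOo : IsOpen O := by
    rw [hO]
    exact isOpen_lt (by fun_prop) continuous_const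
  have hle : ∀ p, ρ (e0 p) = p := by
    rintro ⟨⟨a, z⟩, w⟩
    rw [hρ, he0]
    simp only
    rw [add_sub_cancel_left, hβα]
  have hmem : ∀ p, e0 p ∈ O := by
    intro p
    rw [hO, he0]
    simp only [mem_ofPred_eq]
    rw [add_sub_cancel_left]
    exact hα1 _
  have hsm : ContDiff ℝ ∞ e0 := by
    rw [he0]
    have h1 : ContDiff ℝ ∞ (fun p : (ℂ × (Fin n → ℂ)) × AV n => p.1.1) := contDiff_fst.comp contDiff_fst
    have h2 : ContDiff ℝ ∞ (fun p : (ℂ × (Fin n → ℂ)) × AV n => p.1.2) := contDiff_snd.comp contDiff_fst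
    have h3 : ContDiff ℝ ∞ (fun p : (ℂ × (Fin n → ℂ)) × AV n => 1 + α p.1.1) :=
      contDiff_const.add (hα.comp h1)
    have h4 : ContDiff ℝ ∞ (fun p : (ℂ × (Fin n → ℂ)) × AV n => (1 + α p.1.1)⁻¹) :=
      h3.inv (fun p => hne _)
    exact (h3.prodMk (((hev.comp h2).mul h4).prodMk h2)).prodMk contDiff_snd
  have hρs : ContDiffOn ℝ ∞ ρ O := by
    rw [hρ, hO]
    have h1 : ContDiffOn ℝ ∞ (fun q : AV n × AV n => q.1.1 - 1) {q | ‖q.1.1 - 1‖ < 1 / 2} :=
      ((contDiff_fst.comp contDiff_fst).sub contDiff_const).contDiffOn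
    have h2 : ContDiffOn ℝ ∞ (fun q : AV n × AV n => β (q.1.1 - 1)) {q | ‖q.1.1 - 1‖ < 1 / 2} := by
      refine hβ.comp h1 ?_
      intro q hq
      rw [mem_ball_zero_iff]
      exact hq
    have h3 : ContDiff ℝ ∞ (fun q : AV n × AV n => q.1.2.2) :=
      contDiff_snd.comp (contDiff_snd.comp contDiff_fst)
    exact (h2.prodMk h3.contDiffOn).prodMk contDiff_snd.contDiffOn
  have hran : range e0 = (YC F ∩ {y | ‖y.1 - 1‖ < 1 / 2}) ×ˢ (univ : Set (AV n)) := by
    ext ⟨⟨U, V, z⟩, w⟩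
    simp only [mem_range, mem_prod, mem_inter_iff, mem_ofPred_eq, mem_univ, and_true, YC, Pq]
    constructor
    · rintro ⟨p, hp⟩
      have h1 := hmem p
      rw [hp, hO] at h1
      refine ⟨?_, h1⟩
      rw [he0] at hp
      simp only [Prod.mk.injEq] at hp
      obtain ⟨⟨h2, h3, h4⟩, h5⟩ := hp
      rw [← h2, ← h3, ← h4]
      have h6 := hne p.1.1
      field_simp
      ring
    · rintro ⟨h1, h2⟩
      refine ⟨((β (U - 1), z), w), ?_⟩
      rw [he0]
      simp only [Prod.mk.injEq, and_true]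
      have h3 : α (β (U - 1)) = U - 1 := hαβ _ h2
      have h4 := hne (β (U - 1))
      rw [h3] at h4 ⊢
      refine ⟨by ring, ?_⟩
      rw [add_sub_cancel] at h4 ⊢
      rw [sub_eq_zero] at h1
      rw [← h1]
      field_simp
  refine ⟨e0, ⟨hsm, ?_, ?_, ?_, ⟨O, hOo, ?_⟩⟩, hran⟩
  · intro x
    have h1 : DifferentiableAt ℝ e0 x := (hsm.differentiable (by norm_num)).differentiableAt
    have h2 : DifferentiableAt ℝ ρ (e0 x) :=
      (hρs.contDiffAt (hOo.mem_nhds (hmem x))).differentiableAt (by norm_num)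
    have h3 : fderiv ℝ (fun p => ρ (e0 p)) x = (fderiv ℝ ρ (e0 x)).comp (fderiv ℝ e0 x) :=
      fderiv_comp x h2 h1
    have h4 : (fun p => ρ (e0 p)) = id := funext hle
    rw [h4, fderiv_id] at h3
    intro u v huv
    have h5 : ∀ w, w = (fderiv ℝ ρ (e0 x)) (fderiv ℝ e0 x w) := fun w => by
      have h6 := congrArg (fun T => T w) h3
      simpa using h6
    rw [h5 u, h5 v, huv]
  · let e1 : (ℂ × (Fin n → ℂ)) × AV n → O := fun p => ⟨e0 p, hmem p⟩
    let ρ1 : O → (ℂ × (Fin n → ℂ)) × AV n := fun q => ρ q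
    have h1 : Continuous e1 := hsm.continuous.subtype_mk _
    have h2 : Continuous ρ1 := continuousOn_iff_continuous_domRestrict.1 hρs.continuousOn
    have h3 : Function.LeftInverse ρ1 e1 := fun p => hle p
    have h4 : IsEmbedding e1 := h3.isEmbedding h2 h1
    exact IsEmbedding.subtypeVal.comp h4
  · rw [hran]
    exact prod_mono inter_subset_left (subset_refl _)
  · rw [hran, hO]
    ext q
    simp only [mem_prod, mem_inter_iff, mem_ofPred_eq, mem_univ, and_true]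

end Pool.Agent.Helper36.FX
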