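import Pool.Agent.Helper87.FX.StA

set_option autoImplicit false

/-!
Module CMP of project FX (MP_3bffab_ag): composition, linear maps, translations of diffeomorphisms.
-/

namespace Pool.Agent.Helper36.FX

open Pool.Agent.Helper87.FX
open Set Topology Filter
open scoped ContDiff

theorem hCMP : StCMP := by
  intro E _ _ _
  have : CompleteSpace E := FiniteDimensional.complete ℝ E
  have hdf : ∀ θ : E → E, Dif θ → ∀ x, DifferentiableAt ℝ θ x := fun θ h x =>
    (h.sm.differentiable (by norm_num)).differentiableAt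
  refine ⟨?_, ?_, ?_, ?_⟩
  · intro θ ψ hθ hψ
    refine ⟨hθ.sm.comp hψ.sm, hθ.bij.comp hψ.bij, fun x => ?_⟩
    have h1 : fderiv ℝ (fun x => θ (ψ x)) x = (fderiv ℝ θ (ψ x)).comp (fderiv ℝ ψ x) :=
      fderiv_comp x (hdf θ hθ (ψ x)) (hdf ψ hψ x)
    rw [h1, ContinuousLinearMap.coe_comp]
    exact (hθ.imm (ψ x)).comp (hψ.imm x)
  · intro L hL
    refine ⟨L.contDiff, ⟨hL, ?_⟩, fun x => ?_⟩
    · exact (LinearMap.injective_iff_surjective (f := (L : E →ₗ[ℝ] E))).1 hL
    · have h1 : fderiv ℝ (fun x => L x) x = L := L.fderiv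
      rw [h1]
      exact hL
  · intro θ v hθ
    refine ⟨hθ.sm.add contDiff_const, (Equiv.addRight v).bijective.comp hθ.bij, fun x => ?_⟩
    have h1 : fderiv ℝ (fun x => θ x + v) x = fderiv ℝ θ x := fderiv_add_const v
    rw [h1]
    exact hθ.imm x
  · intro θ hθ
    refine ⟨hθ.sm.continuous, ?_, hθ.bij⟩
    rw [isOpenMap_iff_nhds_le]
    intro x
    have h1 : HasStrictFDerivAt θ (fderiv ℝ θ x) x :=
      hθ.sm.contDiffAt.hasStrictFDerivAt (by norm_num)
    have h2 : (fderiv ℝ θ x).range = ⊤ := by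
      rw [LinearMap.range_eq_top]
      exact (LinearMap.injective_iff_surjective (f := (fderiv ℝ θ x : E →ₗ[ℝ] E))).1 (hθ.imm x)
    rw [h1.map_nhds_eq_of_surj h2]

end Pool.Agent.Helper36.FX
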