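import Pool.Agent.Helper9.FX.StP

set_option autoImplicit false

/-!
Module PHA of project FX (MP_3bffab_ag): the first homotopy, from `Ph1` to `Phi`.
-/

namespace Pool.Agent.Helper36.FX

open Set Complex
open Pool.Agent.Helper9.FX
open Pool.Agent.Helper84.FX (Mp WE Htp II)
open Pool.Agent.Helper72.FX (nu NN W1 W0 LL gg J0 SS StKK kx ky kz)

noncomputable section

/-- gluing of continuous functions on relatively closed pieces -/
private theorem glue3 {E F : Type} [TopologicalSpace E] [TopologicalSpace F] {X : Set E} {H : E → F}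
    {K1 K2 K3 : Set E} {g1 g2 g3 : E → F} (k1 : IsClosed K1) (k2 : IsClosed K2) (k3 : IsClosed K3)
    (c1 : ContinuousOn g1 X) (c2 : ContinuousOn g2 X) (c3 : ContinuousOn g3 X)
    (e1 : ∀ x ∈ X, x ∈ K1 → H x = g1 x) (e2 : ∀ x ∈ X, x ∈ K2 → H x = g2 x)
    (e3 : ∀ x ∈ X, x ∈ K3 → H x = g3 x) (hX : ∀ x ∈ X, x ∈ K1 ∨ x ∈ K2 ∨ x ∈ K3) :
    ContinuousOn H X := by
  have key : ∀ (K : Set E) (g : E → F), IsClosed K → ContinuousOn g X →
      (∀ x ∈ X, x ∈ K → H x = g x) → ∀ x ∈ X, ContinuousWithinAt H (X ∩ K) x := by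
    intro K g hK hg he x hx
    by_cases h : x ∈ K
    · have h1 : ContinuousOn H (X ∩ K) :=
        (hg.mono inter_subset_left).congr fun y hy => he y hy.1 hy.2
      exact h1 x ⟨hx, h⟩
    · refine continuousWithinAt_of_notMem_closure fun h2 => h ?_
      exact (closure_minimal inter_subset_right hK) h2
  intro x hx
  have h1 := key K1 g1 k1 c1 e1 x hx
  have h2 := key K2 g2 k2 c2 e2 x hx
  have h3 := key K3 g3 k3 c3 e3 x hx
  refine ((h1.union h2).union h3).mono ?_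
  intro y hy
  rcases hX y hy with h | h | h
  · exact Or.inl (Or.inl ⟨hy, h⟩)
  · exact Or.inl (Or.inr ⟨hy, h⟩)
  · exact Or.inr ⟨hy, h⟩

/-- the homotopy -/
private def Hh (p : ℝ × EP) : EQ :=
  if p.2.2.2.2 ≤ 0 then cS p.2.2.2.1 (SS (p.1 : ℂ) p.2.1 p.2.2.1 p.2.2.2.1)
  else if p.2.2.2.2 < 1 then
    cS p.2.2.2.1 (SS ((min 1 (p.1 + p.2.2.2.2) : ℝ) : ℂ) p.2.1 p.2.2.1 p.2.2.2.1)
  else (p.2.2.2.1, 0, 0, 0)

private theorem cS_cont (hPMX : StPMX) (X : Set (ℝ × EP)) (hX : ∀ p ∈ X, p.2.2.2.1 ≠ 0)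
    (u : ℝ × EP → ℝ) (hu : Continuous u) :
    ContinuousOn (fun p : ℝ × EP => cS p.2.2.2.1 (SS (u p : ℂ) p.2.1 p.2.2.1 p.2.2.2.1)) X := by
  obtain ⟨-, -, -, -, h5, -⟩ := hPMX
  have hs : ∀ i j : Fin 2, Continuous fun p : ℝ × EP =>
      SS (u p : ℂ) p.2.1 p.2.2.1 p.2.2.2.1 i j := by
    intro i j
    have h1 : Continuous fun p : ℝ × EP =>
        (((u p : ℂ), p.2.1, p.2.2.1, p.2.2.2.1) : ℂ × ℂ × ℂ × ℂ) := by fun_prop
    have h2 := (h5 i j).comp h1
    simp only [Function.comp_def] at h2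
    exact h2
  have ht : Continuous fun p : ℝ × EP => p.2.2.2.1 := by fun_prop
  unfold cS
  refine ht.continuousOn.prodMk (ContinuousOn.prodMk ?_ (ContinuousOn.prodMk ?_ ?_))
  · exact (((hs 0 0).sub continuous_const).continuousOn).div ht.continuousOn hX
  · exact (((hs 1 1).add ht).continuousOn).div (ht.pow 2).continuousOn
      (fun p hp => pow_ne_zero 2 (hX p hp))
  · exact ((hs 0 1).continuousOn).div ht.continuousOn hX

private theorem cS_one (hPKV : StPKV) (hK : StKK) (a b t : ℂ) (ht : t ≠ 0) :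
    cS t (SS 1 a b t) = (t, nu a b t * kx a b t, nu a b t * ky a b t, nu a b t * kz a b t) := by
  obtain ⟨h1, h2, h3⟩ := hPKV hK a b t
  unfold cS
  rw [h1, h2, h3]
  refine Prod.ext rfl (Prod.ext ?_ (Prod.ext ?_ ?_))
  · simp only
    field_simp
    ring
  · simp only
    field_simp
    ring
  · simp only
    field_simp

private theorem cS_one' (hPKV : StPKV) (hK : StKK) (a b t : ℂ) (ht : t ≠ 0) (hn : nu a b t = 0) :
    cS t (SS 1 a b t) = (t, 0, 0, 0) := by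
  rw [cS_one hPKV hK a b t ht, hn]
  simp

private theorem cS_zero (hPMX : StPMX) (a b t : ℂ) (ht : t ≠ 0) :
    cS t (SS 0 a b t) = (t, -2 / t, 2 / t, 0) := by
  obtain ⟨-, -, -, h4, -⟩ := hPMX
  rw [h4, cS, J0]
  refine Prod.ext rfl (Prod.ext ?_ (Prod.ext ?_ ?_))
  · simp
    field_simp
    ring
  · simp
    field_simp
    ring
  · simp

theorem hPHA (hPKV : StPKV) (hPMX : StPMX) : StPHA := by
  intro hK U hU
  have hne : ∀ q ∈ PU U, q.2.2.1 ≠ 0 := fun q hq => hU _ hq.1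
  obtain ⟨p1, p2, p3, p4, p5, p6⟩ := id hPMX
  have hmem : ∀ (u a b t : ℂ), t ∈ U → cS t (SS u a b t) ∈ QU U := fun u a b t ht =>
    p6 U t _ ht (hU t ht) (p2 u a b t) (p3 u a b t)
  have hz : ∀ t : ℂ, t ∈ U → ((t, 0, 0, 0) : EQ) ∈ QU U := by
    intro t ht
    refine ⟨ht, ?_⟩
    simp
  refine ⟨Hh, ⟨?_, ?_⟩, ?_, ?_⟩
  · refine glue3 (K1 := {p : ℝ × EP | p.2.2.2.2 ≤ 0}) (K2 := {p : ℝ × EP | 1 ≤ p.2.2.2.2})
      (K3 := {p : ℝ × EP | nu p.2.1 p.2.2.1 p.2.2.2.1 = 0})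
      (g1 := fun p : ℝ × EP => cS p.2.2.2.1 (SS (p.1 : ℂ) p.2.1 p.2.2.1 p.2.2.2.1))
      (g2 := fun p : ℝ × EP => (p.2.2.2.1, 0, 0, 0))
      (g3 := fun p : ℝ × EP =>
        cS p.2.2.2.1 (SS ((min 1 (p.1 + p.2.2.2.2) : ℝ) : ℂ) p.2.1 p.2.2.1 p.2.2.2.1))
      ?_ ?_ ?_ ?_ ?_ ?_ ?_ ?_ ?_ ?_
    · exact isClosed_le (by fun_prop) continuous_const
    · exact isClosed_le continuous_const (by fun_prop)
    · have h1 : Continuous fun p : ℝ × EP => nu p.2.1 p.2.2.1 p.2.2.2.1 := by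
        unfold nu
        fun_prop
      exact isClosed_eq h1 continuous_const
    · exact cS_cont hPMX _ (fun p hp => hne p.2 hp.2) (fun p => p.1) continuous_fst
    · exact Continuous.continuousOn (by fun_prop)
    · exact cS_cont hPMX _ (fun p hp => hne p.2 hp.2) (fun p => min 1 (p.1 + p.2.2.2.2))
        (by fun_prop)
    · intro p _ h
      have h' : p.2.2.2.2 ≤ 0 := h
      simp only [Hh, if_pos h']
    · intro p _ h
      have h' : 1 ≤ p.2.2.2.2 := h
      simp only [Hh, if_neg (not_le.2 (lt_of_lt_of_le zero_lt_one h')), if_neg (not_lt.2 h')]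
    · rintro ⟨h, a, b, t, r⟩ ⟨hh, hq⟩ hn
      have hn' : nu a b t = 0 := hn
      have ht : t ≠ 0 := hne _ hq
      obtain ⟨-, r0, r1, -⟩ := hq
      have r0' : 0 ≤ r := r0
      have r1' : r ≤ 1 := r1
      have h1' : h ≤ 1 := hh.2
      simp only [Hh]
      by_cases e1 : r ≤ 0
      · have e2 : r = 0 := le_antisymm e1 r0'
        rw [if_pos e1, e2, add_zero, min_eq_right h1']
      · rw [if_neg e1]
        by_cases e2 : r < 1
        · rw [if_pos e2]
        · rw [if_neg e2]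
          have e3 : r = 1 := le_antisymm r1' (not_lt.1 e2)
          have h0' : 0 ≤ h := hh.1
          rw [e3, min_eq_left (by linarith), ofReal_one, cS_one' hPKV hK a b t ht hn']
    · rintro ⟨h, a, b, t, r⟩ ⟨-, hq⟩
      simp only [mem_ofPred_eq]
      by_cases e1 : r ≤ 0
      · exact Or.inl e1
      · by_cases e2 : 1 ≤ r
        · exact Or.inr (Or.inl e2)
        · exact Or.inr (Or.inr (hq.2.2.2 (not_le.1 e1) (not_le.1 e2)))
  · rintro ⟨h, a, b, t, r⟩ ⟨-, hq⟩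
    have ht : t ∈ U := hq.1
    simp only [Hh]
    split_ifs
    · exact hmem _ _ _ _ ht
    · exact hmem _ _ _ _ ht
    · exact hz t ht
  · rintro ⟨a, b, t, r⟩ hq
    have ht : t ≠ 0 := hne _ hq
    obtain ⟨-, r0, r1, -⟩ := hq
    have r1' : r ≤ 1 := r1
    simp only [Hh, Ph1]
    split_ifs
    · rw [ofReal_zero, cS_zero hPMX a b t ht]
    · rw [zero_add, min_eq_right r1']
    · rfl
  · rintro ⟨a, b, t, r⟩ hq
    have ht : t ≠ 0 := hne _ hq
    obtain ⟨-, r0, r1, hr⟩ := hq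
    have r0' : 0 ≤ r := r0
    simp only [Hh, Phi]
    by_cases e1 : r ≤ 0
    · rw [if_pos e1, if_pos e1, ofReal_one, cS_one hPKV hK a b t ht]
    · rw [if_neg e1, if_neg e1]
      by_cases e2 : r < 1
      · rw [if_pos e2, min_eq_left (by linarith), ofReal_one,
          cS_one' hPKV hK a b t ht (hr (not_le.1 e1) e2)]
      · rw [if_neg e2]

end

end Pool.Agent.Helper36.FX
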