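import Pool.Agent.Helper65.FX.St

set_option autoImplicit false

/-!
Module RWD of project FX (MP_3bffab_ag): words with continuous parameters are reachable.
-/

namespace Pool.Agent.Helper36.FX

open Pool.Agent.Helper65.FX Pool.Agent.Helper87.FX
open Set

/-- reachability only depends on the values on `L` -/
theorem rch_congr {V : Type} [NormedAddCommGroup V] [NormedSpace ℝ V] {𝓕 : Set (ℂ → V → V)}
    {L : Set V} {u : V → V} (h : Rch 𝓕 L u) {u' : V → V} (hu : EqOn u' u L) : Rch 𝓕 L u' := by
  cases h with
  | base _ h => exact Rch.base u' (hu.trans h)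
  | step v _ f e h1 h2 h3 h4 => exact Rch.step v u' f e h1 h2 h3 (hu.trans h4)

theorem hRWD : StRWD := by
  intro V _ _ _ 𝓕 L N
  induction N with
  | zero =>
    intro e f u u' _ _ hu h
    exact rch_congr hu h
  | succ N ih =>
    intro e f u u' he hf hu h
    refine ih (fun k => e k.succ) (fun x k => f x k.succ) (fun x => e 0 (f x 0) (u x)) u'
      (fun k => he k.succ) ?_ ?_ h
    · rw [continuousOn_pi] at hf ⊢
      exact fun k => hf k.succ
    · refine Rch.step u _ (fun x => f x 0) (e 0) hu (he 0) ?_ (fun x _ => rfl)
      rw [continuousOn_pi] at hf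
      exact hf 0

end Pool.Agent.Helper36.FX
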